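import Mathlib

/-!
# A counting argument for edge mappings on eight vertices
-/

set_option autoImplicit false

namespace Pool.Agent.X161.EM

/-- The vertex set. -/
abbrev V := Fin 8

/-- A graph together with a pair `F a b` of vertices for every edge. -/
structure Data where
  adj : V → V → Prop
  dec : DecidableRel adj
  symm : ∀ a b, adj a b → adj b a
  irrefl : ∀ a, ¬ adj a a
  F : V → V → Finset V
  Fsymm : ∀ a b, F a b = F b a
  card : ∀ a b, adj a b → (F a b).card ≤ 2
  nl : ∀ a b, adj a b → a ∉ F a b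
  nr : ∀ a b, adj a b → b ∉ F a b
  block : ∀ a b c, adj a b → adj b c → a ≠ c → c ∈ F a b ∨ a ∈ F b c

attribute [instance] Data.dec

variable (D : Data)

/-- Indicator of the adjacency. -/
def Data.h (a b : V) : ℤ := if D.adj a b then 1 else 0

/-- Indicator of the incidences. -/
def Data.g (a b c : V) : ℤ := if D.adj a b ∧ c ∈ D.F a b then 1 else 0

/-- Indicator of the triples of distinct vertices. -/
def δ (a b c : V) : ℤ := if a ≠ b ∧ b ≠ c ∧ c ≠ a then 1 else 0

lemma δ_rot (a b c : V) : δ b c a = δ a b c := by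
  unfold δ
  congr 1
  exact propext ⟨fun ⟨h1, h2, h3⟩ => ⟨h3, h1, h2⟩, fun ⟨h1, h2, h3⟩ => ⟨h2, h3, h1⟩⟩

lemma sum_rot (T : Finset V) (φ : V → V → V → ℤ) :
    ∑ a ∈ T, ∑ b ∈ T, ∑ c ∈ T, φ b c a = ∑ a ∈ T, ∑ b ∈ T, ∑ c ∈ T, φ a b c := by
  rw [Finset.sum_comm]
  exact Finset.sum_congr rfl fun b _ => Finset.sum_comm

/-- The sum over the triples in `T`. -/
def Data.S3 (T : Finset V) : ℤ := ∑ a ∈ T, ∑ b ∈ T, ∑ c ∈ T,
  δ a b c * (1 + D.g a b c + D.g b c a + D.g c a b - (D.h a b + D.h b c + D.h c a))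

lemma h_symm (a b : V) : D.h a b = D.h b a := by
  unfold Data.h
  congr 1
  exact propext ⟨D.symm a b, D.symm b a⟩

lemma g_symm (a b c : V) : D.g a b c = D.g b a c := by
  unfold Data.g
  rw [D.Fsymm a b]
  congr 1
  exact propext ⟨fun h => ⟨D.symm a b h.1, h.2⟩, fun h => ⟨D.symm b a h.1, h.2⟩⟩

lemma sum_δh (T : Finset V) : ∑ a ∈ T, ∑ b ∈ T, ∑ c ∈ T, δ a b c * D.h a b =
    ((T.card : ℤ) - 2) * ∑ a ∈ T, ∑ b ∈ T, D.h a b := by
  rw [Finset.mul_sum]
  refine Finset.sum_congr rfl fun a ha => ?_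
  rw [Finset.mul_sum]
  refine Finset.sum_congr rfl fun b hb => ?_
  by_cases hab : D.adj a b
  · have hne : a ≠ b := by
      rintro rfl
      exact D.irrefl a hab
    rw [← Finset.sum_mul]
    congr 1
    have h1 : ∑ c ∈ T, δ a b c = ∑ c ∈ T, if c ∈ ({a, b} : Finset V) then 0 else 1 := by
      refine Finset.sum_congr rfl fun c _ => ?_
      unfold δ
      by_cases h : c ∈ ({a, b} : Finset V)
      · rw [if_pos h, if_neg]
        rw [Finset.mem_insert, Finset.mem_singleton] at h
        rintro ⟨-, h2, h3⟩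
        rcases h with h | h
        · exact h3 h
        · exact h2 h.symm
      · rw [if_neg h, if_pos]
        rw [Finset.mem_insert, Finset.mem_singleton, not_or] at h
        exact ⟨hne, fun e => h.2 e.symm, h.1⟩
    rw [h1, Finset.sum_ite]
    simp only [Finset.sum_const_zero, zero_add, Finset.sum_const, nsmul_eq_mul, mul_one]
    have h2 : T.filter (fun c => c ∉ ({a, b} : Finset V)) = T \ {a, b} := by
      ext c; simp
    rw [h2, Finset.card_sdiff_of_subset (by
      intro c hc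
      rw [Finset.mem_insert, Finset.mem_singleton] at hc
      rcases hc with rfl | rfl <;> assumption), Finset.card_pair hne]
    have h3 : 2 ≤ T.card := by
      rw [← Finset.card_pair hne]
      apply Finset.card_le_card
      intro c hc
      rw [Finset.mem_insert, Finset.mem_singleton] at hc
      rcases hc with rfl | rfl <;> assumption
    rw [Nat.cast_sub h3]
    norm_num
  · simp [Data.h, hab]

lemma δg (a b c : V) : δ a b c * D.g a b c = D.g a b c := by
  unfold Data.g
  by_cases h : D.adj a b ∧ c ∈ D.F a b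
  · rw [if_pos h]
    have h1 : a ≠ b := by
      rintro rfl
      exact D.irrefl a h.1
    have h2 : b ≠ c := by
      rintro rfl
      exact D.nr a b h.1 h.2
    have h3 : c ≠ a := by
      rintro rfl
      exact D.nl c b h.1 h.2
    rw [δ, if_pos ⟨h1, h2, h3⟩]
    norm_num
  · rw [if_neg h, mul_zero]

lemma S3_eq (T : Finset V) : D.S3 T = ∑ a ∈ T, ∑ b ∈ T, ∑ c ∈ T, δ a b c +
    3 * ∑ a ∈ T, ∑ b ∈ T, ∑ c ∈ T, D.g a b c -
    3 * (((T.card : ℤ) - 2) * ∑ a ∈ T, ∑ b ∈ T, D.h a b) := by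
  have e : D.S3 T = ∑ a ∈ T, ∑ b ∈ T, ∑ c ∈ T, (δ a b c + (δ a b c * D.g a b c +
      δ b c a * D.g b c a + δ c a b * D.g c a b) - (δ a b c * D.h a b + δ b c a * D.h b c +
      δ c a b * D.h c a)) := by
    unfold Data.S3
    refine Finset.sum_congr rfl fun a _ => Finset.sum_congr rfl fun b _ =>
      Finset.sum_congr rfl fun c _ => ?_
    have e1 : δ b c a = δ a b c := δ_rot a b c
    have e2 : δ c a b = δ a b c := by rw [δ_rot b c a, δ_rot a b c]
    rw [e1, e2]
    ring
  rw [e]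
  simp only [Finset.sum_sub_distrib, Finset.sum_add_distrib]
  rw [sum_rot T (fun a b c => δ a b c * D.g a b c), sum_rot T (fun a b c => δ a b c * D.h a b)]
  have r1 : ∑ a ∈ T, ∑ b ∈ T, ∑ c ∈ T, δ c a b * D.g c a b =
      ∑ a ∈ T, ∑ b ∈ T, ∑ c ∈ T, δ a b c * D.g a b c :=
    (sum_rot T (fun a b c => δ c a b * D.g c a b)).symm
  have r2 : ∑ a ∈ T, ∑ b ∈ T, ∑ c ∈ T, δ c a b * D.h c a =
      ∑ a ∈ T, ∑ b ∈ T, ∑ c ∈ T, δ a b c * D.h a b :=
    (sum_rot T (fun a b c => δ c a b * D.h c a)).symm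
  rw [r1, r2, sum_δh]
  simp only [δg]
  ring

lemma term_nonneg (a b c : V) :
    0 ≤ δ a b c * (1 + D.g a b c + D.g b c a + D.g c a b - (D.h a b + D.h b c + D.h c a)) := by
  by_cases hd : a ≠ b ∧ b ≠ c ∧ c ≠ a
  · rw [δ, if_pos hd, one_mul]
    obtain ⟨hab, hbc, hca⟩ := hd
    have b1 : D.adj a b → D.adj b c → D.g a b c = 1 ∨ D.g b c a = 1 := by
      intro h1 h2
      rcases D.block a b c h1 h2 (Ne.symm hca) with h | h
      · left; rw [Data.g, if_pos ⟨h1, h⟩]
      · right; rw [Data.g, if_pos ⟨h2, h⟩]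
    have b2 : D.adj b c → D.adj c a → D.g b c a = 1 ∨ D.g c a b = 1 := by
      intro h1 h2
      rcases D.block b c a h1 h2 (Ne.symm hab) with h | h
      · left; rw [Data.g, if_pos ⟨h1, h⟩]
      · right; rw [Data.g, if_pos ⟨h2, h⟩]
    have b3 : D.adj c a → D.adj a b → D.g c a b = 1 ∨ D.g a b c = 1 := by
      intro h1 h2
      rcases D.block c a b h1 h2 (Ne.symm hbc) with h | h
      · left; rw [Data.g, if_pos ⟨h1, h⟩]
      · right; rw [Data.g, if_pos ⟨h2, h⟩]
    have p1 : 0 ≤ D.g a b c := by unfold Data.g; split_ifs <;> norm_num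
    have p2 : 0 ≤ D.g b c a := by unfold Data.g; split_ifs <;> norm_num
    have p3 : 0 ≤ D.g c a b := by unfold Data.g; split_ifs <;> norm_num
    by_cases h1 : D.adj a b <;> by_cases h2 : D.adj b c <;> by_cases h3 : D.adj c a <;>
      simp only [Data.h, h1, h2, h3, if_true, if_false]
    · rcases b1 h1 h2 with k1 | k1 <;> rcases b2 h2 h3 with k2 | k2 <;>
        rcases b3 h3 h1 with k3 | k3 <;> omega
    · rcases b1 h1 h2 with k1 | k1 <;> omega
    · rcases b3 h3 h1 with k1 | k1 <;> omega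
    · omega
    · rcases b2 h2 h3 with k1 | k1 <;> omega
    · omega
    · omega
    · omega
  · rw [δ, if_neg hd, zero_mul]

/-- The number of the ordered pairs of adjacent vertices. -/
def Data.E : ℤ := ∑ a, ∑ b, D.h a b

lemma g_sum_le (T : Finset V) (a b : V) : ∑ c ∈ T, D.g a b c ≤ 2 * D.h a b := by
  by_cases h : D.adj a b
  · simp only [Data.g, Data.h, h, true_and, if_true]
    rw [Finset.sum_boole]
    have : (T.filter (fun c => c ∈ D.F a b)).card ≤ 2 := by
      refine (Finset.card_le_card ?_).trans (D.card a b h)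
      intro c hc
      exact (Finset.mem_filter.1 hc).2
    norm_num
    exact_mod_cast this
  · simp [Data.g, Data.h, h]

lemma sum_g_le (T : Finset V) : ∑ a ∈ T, ∑ b ∈ T, ∑ c ∈ T, D.g a b c ≤
    2 * ∑ a ∈ T, ∑ b ∈ T, D.h a b := by
  rw [Finset.mul_sum]
  refine Finset.sum_le_sum fun a _ => ?_
  rw [Finset.mul_sum]
  exact Finset.sum_le_sum fun b _ => g_sum_le D T a b

lemma E_le : D.E ≤ 28 := by
  have h1 : 0 ≤ D.S3 Finset.univ := Finset.sum_nonneg fun a _ => Finset.sum_nonneg fun b _ =>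
    Finset.sum_nonneg fun c _ => term_nonneg D a b c
  rw [S3_eq] at h1
  have h2 := sum_g_le D Finset.univ
  have h3 : ∑ a : V, ∑ b : V, ∑ c : V, δ a b c = 336 := by decide +kernel
  rw [h3] at h1
  simp only [Finset.card_univ, Fintype.card_fin] at h1
  unfold Data.E
  push_cast at h1
  linarith

/-- In the extremal case every inequality is an equality. -/
lemma exact (hE : 28 ≤ D.E) {a b c : V} (hab : a ≠ b) (hbc : b ≠ c) (hca : c ≠ a) :
    D.h a b + D.h b c + D.h c a = 1 + D.g a b c + D.g b c a + D.g c a b := by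
  have h1 : D.S3 Finset.univ = 0 := by
    apply le_antisymm
    · rw [S3_eq]
      have h2 := sum_g_le D Finset.univ
      have h3 : ∑ a : V, ∑ b : V, ∑ c : V, δ a b c = 336 := by decide +kernel
      rw [h3]
      simp only [Finset.card_univ, Fintype.card_fin]
      unfold Data.E at hE
      push_cast
      linarith
    · exact Finset.sum_nonneg fun a _ => Finset.sum_nonneg fun b _ =>
        Finset.sum_nonneg fun c _ => term_nonneg D a b c
  have h2 := (Finset.sum_eq_zero_iff_of_nonneg (fun a _ => Finset.sum_nonneg fun b _ =>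
    Finset.sum_nonneg fun c _ => term_nonneg D a b c)).1 h1 a (Finset.mem_univ a)
  have h3 := (Finset.sum_eq_zero_iff_of_nonneg (fun b _ =>
    Finset.sum_nonneg fun c _ => term_nonneg D a b c)).1 h2 b (Finset.mem_univ b)
  have h4 := (Finset.sum_eq_zero_iff_of_nonneg (fun c _ => term_nonneg D a b c)).1 h3 c
    (Finset.mem_univ c)
  rw [δ, if_pos ⟨hab, hbc, hca⟩] at h4
  linarith

end Pool.Agent.X161.EM
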