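import Pool.Agent.X161.EM.Two

/-!
# The extremal case is impossible if the values are edges
-/

set_option autoImplicit false

namespace Pool.Agent.X161.EM

variable (D : Data)

/-- Every pair `F a b` consists of the ends of an edge. -/
def Data.Good : Prop := ∀ a b, D.adj a b → ∃ c d, D.adj c d ∧ D.F a b = {c, d}

/-- From `c ∈ F a b` one obtains a partner. -/
lemma partner (hG : D.Good) {a b c : V} (h : D.adj a b) (hc : c ∈ D.F a b) :
    ∃ d, D.adj c d ∧ D.F a b = {c, d} := by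
  obtain ⟨x, y, hxy, he⟩ := hG a b h
  rw [he, Finset.mem_insert, Finset.mem_singleton] at hc
  rcases hc with rfl | rfl
  · exact ⟨y, hxy, he⟩
  · exact ⟨x, D.symm _ _ hxy, by rw [he, Finset.pair_comm]⟩

/-- In the extremal case every element of `F a b` is adjacent to `a` or to `b`. -/
lemma useful (hE : 28 ≤ D.E) {a b c : V} (h : D.adj a b) (hc : c ∈ D.F a b) :
    D.adj b c ∨ D.adj c a := by
  have hab : a ≠ b := by rintro rfl; exact D.irrefl a h
  have hbc : b ≠ c := by rintro rfl; exact D.nr a b h hc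
  have hca : c ≠ a := by rintro rfl; exact D.nl c b h hc
  have h1 := exact D hE hab hbc hca
  rw [h_one D h, g_one D h hc] at h1
  have h2 := g_nonneg D b c a
  have h3 := g_nonneg D c a b
  by_contra hcon
  rw [not_or] at hcon
  rw [h_zero D hcon.1, h_zero D hcon.2] at h1
  linarith

/-- The matching case: one side. -/
lemma match_side (hE : 28 ≤ D.E) (hG : D.Good) {S : Finset V}
    (hcl : ∀ a ∈ S, ∀ b ∈ S, a ≠ b → D.adj a b) {x x' y y' : V} (hx : x ∈ S) (hx' : x' ∈ S)
    (hy : y ∉ S) (hy' : y' ∉ S) (hxx : x ≠ x') (hyy : y ≠ y') (hxy : D.adj x y)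
    (hcross : ∀ a ∈ S, ∀ b, b ∉ S → D.adj a b → (a = x ∧ b = y) ∨ (a = x' ∧ b = y'))
    {a : V} (ha : a ∈ S) (hax : a ≠ x) (hax' : a ≠ x') : a ∈ D.F x y := by
  have hay : a ≠ y := by rintro rfl; exact hy ha
  have hadj := hcl a ha x hx hax
  rcases D.block a x y hadj hxy hay with h | h
  · exfalso
    obtain ⟨z, hyz, hF⟩ := partner D hG hadj h
    have hz : z ∈ D.F a x := by rw [hF]; simp
    have hzy : z ≠ y := by rintro rfl; exact D.irrefl _ hyz
    have hzx : z ≠ x := by rintro rfl; exact D.nr _ _ hadj hz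
    by_cases hzS : z ∈ S
    · rcases hcross z hzS y hy (D.symm _ _ hyz) with ⟨k, -⟩ | ⟨-, k⟩
      · exact hzx k
      · exact hyy k
    · rcases useful D hE hadj hz with k | k
      · rcases hcross x hx z hzS k with ⟨-, k'⟩ | ⟨k', -⟩
        · exact hzy k'
        · exact hxx k'
      · rcases hcross a ha z hzS (D.symm _ _ k) with ⟨k', -⟩ | ⟨k', -⟩
        · exact hax k'
        · exact hax' k'
  · exact h

lemma match_case (hE : 28 ≤ D.E) (hG : D.Good) {S : Finset V} (hS : S.card = 4)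
    (hSc : Sᶜ.card = 4)
    (hcl : ∀ a ∈ S, ∀ b ∈ S, a ≠ b → D.adj a b) (hcl' : ∀ a ∈ Sᶜ, ∀ b ∈ Sᶜ, a ≠ b → D.adj a b)
    {x x' y y' : V} (hx : x ∈ S) (hx' : x' ∈ S)
    (hy : y ∈ Sᶜ) (hy' : y' ∈ Sᶜ) (hxx : x ≠ x') (hyy : y ≠ y') (hxy : D.adj x y)
    (hcross : ∀ a ∈ S, ∀ b ∈ Sᶜ, D.adj a b → (a = x ∧ b = y) ∨ (a = x' ∧ b = y')) : False := by
  have hsub : (S.erase x).erase x' ∪ (Sᶜ.erase y).erase y' ⊆ D.F x y := by
    intro a ha
    rw [Finset.mem_union, Finset.mem_erase, Finset.mem_erase, Finset.mem_erase,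
      Finset.mem_erase] at ha
    rcases ha with ⟨h1, h2, h3⟩ | ⟨h1, h2, h3⟩
    · exact match_side D hE hG hcl hx hx' (Finset.mem_compl.1 hy) (Finset.mem_compl.1 hy') hxx
        hyy hxy (fun a ha b hb => hcross a ha b (Finset.mem_compl.2 hb)) h3 h2 h1
    · rw [D.Fsymm]
      refine match_side D hE hG hcl' hy hy' (fun h => Finset.mem_compl.1 h hx)
        (fun h => Finset.mem_compl.1 h hx') hyy hxx (D.symm _ _ hxy) ?_ h3 h2 h1
      intro a ha b hb hab
      rw [Finset.mem_compl, not_not] at hb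
      rcases hcross b hb a ha (D.symm _ _ hab) with ⟨k, k'⟩ | ⟨k, k'⟩
      · exact Or.inl ⟨k', k⟩
      · exact Or.inr ⟨k', k⟩
  have h1 := Finset.card_le_card hsub
  rw [Finset.card_union_of_disjoint, Finset.card_erase_of_mem, Finset.card_erase_of_mem,
    Finset.card_erase_of_mem, Finset.card_erase_of_mem, hS, hSc] at h1
  · have := D.card x y hxy
    omega
  · exact hy
  · exact Finset.mem_erase.2 ⟨hyy.symm, hy'⟩
  · exact hx
  · exact Finset.mem_erase.2 ⟨hxx.symm, hx'⟩
  · rw [Finset.disjoint_left]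
    intro a ha ha'
    have h2 := Finset.mem_of_mem_erase (Finset.mem_of_mem_erase ha)
    have h3 := Finset.mem_of_mem_erase (Finset.mem_of_mem_erase ha')
    exact Finset.mem_compl.1 h3 h2

/-- The number of elements of `F a b` in a set. -/
lemma slots {a b : V} (h : D.adj a b) {P : Finset V} :
    (P.filter (fun c => c ∈ D.F a b)).card ≤ 2 := by
  refine (Finset.card_le_card ?_).trans (D.card a b h)
  intro c hc
  exact (Finset.mem_filter.1 hc).2

/-- The case of two edges with a common end. -/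
lemma share_case (hG : D.Good) {S : Finset V} (hS : S.card = 4)
    (hcl : ∀ a ∈ S, ∀ b ∈ S, a ≠ b → D.adj a b)
    {x y y' : V} (hx : x ∈ S) (hy : y ∉ S) (hy' : y' ∉ S) (hyy : y ≠ y') (hxy : D.adj x y)
    (hxy' : D.adj x y')
    (hcross : ∀ a ∈ S, ∀ b, b ∉ S → D.adj a b → (a = x ∧ b = y) ∨ (a = x ∧ b = y')) :
    False := by
  have h3 : (S.erase x).card = 3 := by rw [Finset.card_erase_of_mem hx, hS]
  obtain ⟨p, q, r, hpq, hpr, hqr, hP⟩ := Finset.card_eq_three.1 h3
  have mem : ∀ c, c ∈ ({p, q, r} : Finset V) → c ∈ S ∧ c ≠ x := by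
    intro c hc
    rw [← hP, Finset.mem_erase] at hc
    exact ⟨hc.2, hc.1⟩
  obtain ⟨pS, px⟩ := mem p (by simp)
  obtain ⟨qS, qx⟩ := mem q (by simp)
  obtain ⟨rS, rx⟩ := mem r (by simp)
  have ne : ∀ {s t : V}, s ∈ S → t ∉ S → s ≠ t := by
    rintro s t hs ht rfl; exact ht hs
  have ap := hcl p pS x hx px
  have aq := hcl q qS x hx qx
  have ar := hcl r rS x hx rx
  -- the blocking conditions
  have b1 := D.block p x q ap (D.symm _ _ aq) hpq
  have b2 := D.block p x r ap (D.symm _ _ ar) hpr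
  have b3 := D.block q x r aq (D.symm _ _ ar) hqr
  have c1 := D.block p x y ap hxy (ne pS hy)
  have c2 := D.block q x y aq hxy (ne qS hy)
  have c3 := D.block r x y ar hxy (ne rS hy)
  have c1' := D.block p x y' ap hxy' (ne pS hy')
  have c2' := D.block q x y' aq hxy' (ne qS hy')
  have c3' := D.block r x y' ar hxy' (ne rS hy')
  rw [D.Fsymm x q] at b1
  rw [D.Fsymm x r] at b2 b3
  -- the values on `x y` and `x y'`
  have key : ∀ {u v : V}, u ∉ S → v ∉ S → D.adj x u → D.adj x v →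
      (∀ a ∈ S, a ≠ x → ¬ D.adj v a) → v ∈ D.F x u → ∀ c ∈ S, c ∉ D.F x u := by
    intro u v hu hv hxu hxv hvS hvF c hc hcF
    obtain ⟨z, hvz, hF⟩ := partner D hG hxu hvF
    rw [hF, Finset.mem_insert, Finset.mem_singleton] at hcF
    rcases hcF with rfl | rfl
    · exact hv hc
    · have hcx : c ≠ x := by
        rintro rfl
        apply D.nl c u hxu
        rw [hF]; simp
      exact hvS c hc hcx hvz
  have noy : ∀ a ∈ S, a ≠ x → ¬ D.adj y a := by
    intro a ha hax h
    rcases hcross a ha y hy (D.symm _ _ h) with ⟨k, -⟩ | ⟨k, -⟩ <;> exact hax k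
  have noy' : ∀ a ∈ S, a ≠ x → ¬ D.adj y' a := by
    intro a ha hax h
    rcases hcross a ha y' hy' (D.symm _ _ h) with ⟨k, -⟩ | ⟨k, -⟩ <;> exact hax k
  -- indicator functions
  have cnt : ∀ {a b : V}, D.adj a b → ∀ {s t u v : V}, s ≠ t → s ≠ u → s ≠ v → t ≠ u → t ≠ v →
      u ≠ v → (if s ∈ D.F a b then 1 else 0) + (if t ∈ D.F a b then 1 else 0) +
      (if u ∈ D.F a b then 1 else 0) + (if v ∈ D.F a b then 1 else 0) ≤ 2 := by
    intro a b hab s t u v h1 h2 h3 h4 h5 h6
    have := slots D hab (P := {s, t, u, v})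
    rw [Finset.card_filter, Finset.sum_insert (by simp [h1, h2, h3]),
      Finset.sum_insert (by simp [h4, h5]), Finset.sum_insert (by simp [h6]),
      Finset.sum_singleton] at this
    omega
  have k1 := cnt ap hqr (ne qS hy) (ne qS hy') (ne rS hy) (ne rS hy') hyy
  have k2 := cnt aq hpr (ne pS hy) (ne pS hy') (ne rS hy) (ne rS hy') hyy
  have k3 := cnt ar hpq (ne pS hy) (ne pS hy') (ne qS hy) (ne qS hy') hyy
  have k4 := cnt hxy hpq hpr (ne pS hy') hqr (ne qS hy') (ne rS hy')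
  have k5 := cnt hxy' hpq hpr (ne pS hy) hqr (ne qS hy) (ne rS hy)
  have or1 : ∀ {P Q : Prop} [Decidable P] [Decidable Q], P ∨ Q →
      1 ≤ (if P then 1 else 0) + (if Q then 1 else 0) := by
    intro P Q _ _ h
    split_ifs <;> simp_all
  have zero : ∀ {P : Prop} [Decidable P], ¬ P → (if P then 1 else 0) = 0 := by
    intro P _ h
    rw [if_neg h]
  replace b1 := or1 b1
  replace b2 := or1 b2
  replace b3 := or1 b3
  replace c1 := or1 c1
  replace c2 := or1 c2
  replace c3 := or1 c3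
  replace c1' := or1 c1'
  replace c2' := or1 c2'
  replace c3' := or1 c3'
  rcases D.block y x y' (D.symm _ _ hxy) hxy' hyy with h | h
  · rw [D.Fsymm] at h
    have n := key hy hy' hxy hxy' noy' h
    have np := zero (n p pS)
    have nq := zero (n q qS)
    have nr := zero (n r rS)
    omega
  · have n := key hy' hy hxy' hxy noy h
    have np := zero (n p pS)
    have nq := zero (n q qS)
    have nr := zero (n r rS)
    omega

/-- There is no extremal example whose values are edges. -/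
theorem E_ne (hG : D.Good) : D.E ≠ 28 := by
  intro hE
  have hE' : 28 ≤ D.E := hE.ge
  obtain ⟨S, hS, hSc, hcl, hcl', hsum⟩ := two_K4 D hE
  set X : Finset (V × V) := (S ×ˢ Sᶜ).filter (fun e => D.adj e.1 e.2) with hX
  have hXc : X.card = 2 := by
    have : (X.card : ℤ) = 2 := by
      rw [← hsum, ← Finset.sum_product' S Sᶜ (fun a b => D.h a b), hX]
      unfold Data.h
      rw [Finset.sum_boole]
    exact_mod_cast this
  obtain ⟨⟨x, y⟩, ⟨x', y'⟩, hne, hXe⟩ := Finset.card_eq_two.1 hXc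
  have m1 : (x, y) ∈ X := by rw [hXe]; simp
  have m2 : (x', y') ∈ X := by rw [hXe]; simp
  rw [hX, Finset.mem_filter, Finset.mem_product] at m1 m2
  obtain ⟨⟨hx, hy⟩, hxy⟩ := m1
  obtain ⟨⟨hx', hy'⟩, hxy'⟩ := m2
  simp only at hx hy hxy hx' hy' hxy'
  have hcross : ∀ a ∈ S, ∀ b ∈ Sᶜ, D.adj a b → (a = x ∧ b = y) ∨ (a = x' ∧ b = y') := by
    intro a ha b hb hab
    have : (a, b) ∈ X := by
      rw [hX, Finset.mem_filter, Finset.mem_product]
      exact ⟨⟨ha, hb⟩, hab⟩
    rw [hXe, Finset.mem_insert, Finset.mem_singleton, Prod.mk.injEq, Prod.mk.injEq] at this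
    exact this
  by_cases hxx : x = x'
  · subst hxx
    have hyy : y ≠ y' := by
      rintro rfl; exact hne rfl
    exact share_case D hG hS hcl hx (Finset.mem_compl.1 hy) (Finset.mem_compl.1 hy') hyy hxy hxy'
      fun a ha b hb => hcross a ha b (Finset.mem_compl.2 hb)
  · by_cases hyy : y = y'
    · subst hyy
      refine share_case D hG hSc hcl' hy (fun h => Finset.mem_compl.1 h hx)
        (fun h => Finset.mem_compl.1 h hx') hxx (D.symm _ _ hxy) (D.symm _ _ hxy') ?_
      intro a ha b hb hab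
      rw [Finset.mem_compl, not_not] at hb
      rcases hcross b hb a ha (D.symm _ _ hab) with ⟨k, k'⟩ | ⟨k, k'⟩
      · exact Or.inl ⟨k', k⟩
      · exact Or.inr ⟨k', k⟩
    · exact match_case D hE' hG hS hSc hcl hcl' hx hx' hy hy' hxx hyy hxy hcross

end Pool.Agent.X161.EM
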