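import Pool.Agent.X161.EM.Core

/-!
# The structure of the extremal case
-/

set_option autoImplicit false

namespace Pool.Agent.X161.EM

variable (D : Data)

lemma h_nonneg (a b : V) : 0 ≤ D.h a b := by unfold Data.h; split_ifs <;> norm_num

lemma h_le_one (a b : V) : D.h a b ≤ 1 := by unfold Data.h; split_ifs <;> norm_num

lemma g_nonneg (a b c : V) : 0 ≤ D.g a b c := by unfold Data.g; split_ifs <;> norm_num

lemma h_self (a : V) : D.h a a = 0 := by
  unfold Data.h; rw [if_neg (D.irrefl a)]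

lemma h_one {a b : V} (h : D.adj a b) : D.h a b = 1 := by unfold Data.h; rw [if_pos h]

lemma h_zero {a b : V} (h : ¬ D.adj a b) : D.h a b = 0 := by unfold Data.h; rw [if_neg h]

lemma adj_of_h {a b : V} (h : 0 < D.h a b) : D.adj a b := by
  by_contra h'
  rw [h_zero D h'] at h
  exact lt_irrefl _ h

lemma g_one {a b c : V} (h : D.adj a b) (hc : c ∈ D.F a b) : D.g a b c = 1 := by
  unfold Data.g; rw [if_pos ⟨h, hc⟩]

/-- Indicator of the pairs of distinct vertices. -/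
def ε (a b : V) : ℤ := if a ≠ b then 1 else 0

lemma h_le_ε (a b : V) : D.h a b ≤ ε a b := by
  by_cases hab : a = b
  · subst hab
    rw [h_self, ε, if_neg (by simp)]
  · rw [ε, if_pos hab]
    exact h_le_one D a b

lemma tri (hE : 28 ≤ D.E) {a b c : V} (hab : a ≠ b) (hbc : b ≠ c) (hca : c ≠ a) :
    1 ≤ D.h a b + D.h b c + D.h c a := by
  have := exact D hE hab hbc hca
  have h1 := g_nonneg D a b c
  have h2 := g_nonneg D b c a
  have h3 := g_nonneg D c a b
  linarith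

lemma sumδ5 : ∀ T : Finset V, T.card = 5 → ∑ a ∈ T, ∑ b ∈ T, ∑ c ∈ T, δ a b c = 60 := by
  decide +kernel

lemma sumε5 : ∀ T : Finset V, T.card = 5 → ∑ a ∈ T, ∑ b ∈ T, ε a b = 20 := by
  decide +kernel

lemma sumε4 : ∀ T : Finset V, T.card = 4 → ∑ a ∈ T, ∑ b ∈ T, ε a b = 12 := by
  decide +kernel

lemma sumε3 : ∀ T : Finset V, T.card = 3 → ∑ a ∈ T, ∑ b ∈ T, ε a b = 6 := by
  decide +kernel

lemma sum_clique {T : Finset V} (hcl : ∀ a ∈ T, ∀ b ∈ T, a ≠ b → D.adj a b) :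
    ∑ a ∈ T, ∑ b ∈ T, D.h a b = ∑ a ∈ T, ∑ b ∈ T, ε a b := by
  refine Finset.sum_congr rfl fun a ha => Finset.sum_congr rfl fun b hb => ?_
  by_cases hab : a = b
  · subst hab
    rw [h_self, ε, if_neg (by simp)]
  · rw [ε, if_pos hab, h_one D (hcl a ha b hb hab)]

lemma E_split (T : Finset V) : D.E = ∑ a ∈ T, ∑ b ∈ T, D.h a b +
    2 * ∑ a ∈ T, ∑ b ∈ Tᶜ, D.h a b + ∑ a ∈ Tᶜ, ∑ b ∈ Tᶜ, D.h a b := by
  unfold Data.E
  rw [← Finset.sum_add_sum_compl T]
  have e1 : ∀ a, ∑ b, D.h a b = ∑ b ∈ T, D.h a b + ∑ b ∈ Tᶜ, D.h a b := fun a =>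
    (Finset.sum_add_sum_compl T _).symm
  simp only [e1, Finset.sum_add_distrib]
  have e2 : ∑ a ∈ Tᶜ, ∑ b ∈ T, D.h a b = ∑ a ∈ T, ∑ b ∈ Tᶜ, D.h a b := by
    rw [Finset.sum_comm]
    exact Finset.sum_congr rfl fun a _ => Finset.sum_congr rfl fun b _ => h_symm D b a
  rw [e2]
  ring

lemma no_K5 (hE : 28 ≤ D.E) {T : Finset V} (hT : T.card = 5)
    (hcl : ∀ a ∈ T, ∀ b ∈ T, a ≠ b → D.adj a b) : False := by
  have h0 : D.S3 T = 0 := by
    unfold Data.S3
    refine Finset.sum_eq_zero fun a _ => Finset.sum_eq_zero fun b _ =>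
      Finset.sum_eq_zero fun c _ => ?_
    by_cases hd : a ≠ b ∧ b ≠ c ∧ c ≠ a
    · have := exact D hE hd.1 hd.2.1 hd.2.2
      rw [δ, if_pos hd]
      linarith
    · rw [δ, if_neg hd, zero_mul]
  have hh : ∑ a ∈ T, ∑ b ∈ T, D.h a b = 20 := by
    rw [sum_clique D hcl, sumε5 T hT]
  rw [S3_eq, sumδ5 T hT, hh, hT] at h0
  have hg : ∑ a ∈ T, ∑ b ∈ T, ∑ c ∈ T, D.g a b c = ∑ a ∈ T, ∑ b ∈ T, 2 * D.h a b := by
    have : ∑ a ∈ T, ∑ b ∈ T, 2 * D.h a b = 40 := by
      simp only [← Finset.mul_sum]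
      rw [hh]; norm_num
    rw [this]
    push_cast at h0
    linarith
  have hsub : ∀ a ∈ T, ∀ b ∈ T, a ≠ b → D.F a b ⊆ T := by
    intro a ha b hb hab
    have k1 := (Finset.sum_eq_sum_iff_of_le (fun a _ => Finset.sum_le_sum fun b _ =>
      g_sum_le D T a b)).1 hg a ha
    have k2 := (Finset.sum_eq_sum_iff_of_le (fun b _ => g_sum_le D T a b)).1 k1 b hb
    have hadj := hcl a ha b hb hab
    rw [h_one D hadj] at k2
    simp only [Data.g, hadj, true_and] at k2
    rw [Finset.sum_boole] at k2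
    have k3 : (T.filter (fun c => c ∈ D.F a b)).card = 2 := by
      have : ((T.filter (fun c => c ∈ D.F a b)).card : ℤ) = 2 := by
        rw [k2]; norm_num
      exact_mod_cast this
    have k4 : T.filter (fun c => c ∈ D.F a b) = D.F a b := by
      apply Finset.eq_of_subset_of_card_le
      · intro c hc
        exact (Finset.mem_filter.1 hc).2
      · rw [k3]; exact D.card a b hadj
    rw [← k4]
    exact Finset.filter_subset _ _
  have hcross : ∀ s ∈ T, ∀ r ∈ Tᶜ, D.h s r = 0 := by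
    intro s hs r hr
    rw [Finset.mem_compl] at hr
    apply h_zero
    intro hsr
    have k1 : T.erase s ⊆ D.F r s := by
      intro a ha
      rw [Finset.mem_erase] at ha
      have hra : r ≠ a := by rintro rfl; exact hr ha.2
      rcases D.block r s a (D.symm _ _ hsr) (hcl s hs a ha.2 (Ne.symm ha.1)) hra with h | h
      · exact h
      · exact absurd (hsub s hs a ha.2 (Ne.symm ha.1) h) hr
    have k2 := Finset.card_le_card k1
    rw [Finset.card_erase_of_mem hs, hT] at k2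
    have k3 := D.card r s (D.symm _ _ hsr)
    omega
  have hc3 : Tᶜ.card = 3 := by
    rw [Finset.card_compl, hT, Fintype.card_fin]
  rw [E_split D T, hh] at hE
  have e1 : ∑ a ∈ T, ∑ b ∈ Tᶜ, D.h a b = 0 :=
    Finset.sum_eq_zero fun a ha => Finset.sum_eq_zero fun b hb => hcross a ha b hb
  have e2 : ∑ a ∈ Tᶜ, ∑ b ∈ Tᶜ, D.h a b ≤ 6 := by
    rw [← sumε3 Tᶜ hc3]
    exact Finset.sum_le_sum fun a _ => Finset.sum_le_sum fun b _ => h_le_ε D a b
  rw [e1] at hE
  linarith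

end Pool.Agent.X161.EM
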