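import Pool.Agent.X161.EM.Struct

/-!
# Two complete graphs on four vertices
-/

set_option autoImplicit false

namespace Pool.Agent.X161.EM

variable (D : Data)

lemma low_deg (hE : D.E = 28) : ∃ v : V, ∑ b, D.h v b ≤ 3 := by
  by_contra hcon
  push Not at hcon
  have : ∑ v : V, (4 : ℤ) ≤ ∑ v : V, ∑ b, D.h v b :=
    Finset.sum_le_sum fun v _ => by have := hcon v; omega
  rw [Finset.sum_const, Finset.card_univ, Fintype.card_fin] at this
  unfold Data.E at hE
  rw [hE] at this
  norm_num at this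

/-- Adding to a clique a vertex adjacent to all its vertices. -/
lemma no_ext (hE : 28 ≤ D.E) {S : Finset V} (hS : S.card = 4)
    (hcl : ∀ a ∈ S, ∀ b ∈ S, a ≠ b → D.adj a b) {w : V} (hw : w ∉ S)
    (hadj : ∀ s ∈ S, D.adj s w) : False := by
  refine no_K5 D hE (T := insert w S) ?_ ?_
  · rw [Finset.card_insert_of_notMem hw, hS]
  · intro a ha b hb hab
    rw [Finset.mem_insert] at ha hb
    rcases ha with rfl | ha <;> rcases hb with rfl | hb
    · exact absurd rfl hab
    · exact D.symm _ _ (hadj b hb)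
    · exact hadj a ha
    · exact hcl a ha b hb hab

lemma adj_pair (hE : D.E = 28) {S : Finset V} (hS : S.card = 4)
    (hcl : ∀ a ∈ S, ∀ b ∈ S, a ≠ b → D.adj a b) {v w w' w'' : V}
    (hc : Sᶜ = {v, w, w', w''}) (h1 : v ≠ w) (h2 : v ≠ w') (h3 : v ≠ w'') (h4 : w ≠ w')
    (h5 : w ≠ w'') (h6 : w' ≠ w'') (a1 : D.adj v w) (a2 : D.adj v w') (a3 : D.adj v w'')
    (hv : ∀ s ∈ S, D.h s v = 0) : D.adj w w' := by
  by_contra hn
  have hE' : 28 ≤ D.E := hE.ge
  have n1 : v ∉ ({w, w', w''} : Finset V) := by simp [h1, h2, h3]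
  have n2 : w ∉ ({w', w''} : Finset V) := by simp [h4, h5]
  have n3 : w' ∉ ({w''} : Finset V) := by simp [h6]
  have hs : ∀ φ : V → ℤ, ∑ b ∈ Sᶜ, φ b = φ v + (φ w + (φ w' + φ w'')) := by
    intro φ
    rw [hc, Finset.sum_insert n1, Finset.sum_insert n2, Finset.sum_insert n3,
      Finset.sum_singleton]
  have hw : w ∉ S := by
    rw [← Finset.mem_compl, hc]; simp
  have hw' : w' ∉ S := by
    rw [← Finset.mem_compl, hc]; simp
  have hw'' : w'' ∉ S := by
    rw [← Finset.mem_compl, hc]; simp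
  have ne : ∀ {s t : V}, s ∈ S → t ∉ S → s ≠ t := by
    rintro s t hs ht rfl; exact ht hs
  have e0 := E_split D S
  rw [hE, sum_clique D hcl, sumε4 S hS] at e0
  simp only [hs] at e0
  have z := h_zero D hn
  have z' : D.h w' w = 0 := by rw [h_symm, z]
  have o1 := h_one D a1
  have o2 := h_one D a2
  have o3 := h_one D a3
  have o1' := h_one D (D.symm _ _ a1)
  have o2' := h_one D (D.symm _ _ a2)
  have o3' := h_one D (D.symm _ _ a3)
  have s1 := h_symm D w'' w
  have s2 := h_symm D w'' w'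
  simp only [h_self, o1, o2, o3, o1', o2', o3', z, z', s1, s2] at e0
  have e1 : ∑ a ∈ S, (D.h a v + (D.h a w + (D.h a w' + D.h a w''))) =
      ∑ a ∈ S, (D.h a w + D.h a w') + ∑ a ∈ S, D.h a w'' := by
    rw [← Finset.sum_add_distrib]
    refine Finset.sum_congr rfl fun a ha => ?_
    rw [hv a ha]; ring
  rw [e1] at e0
  have e2 : 4 ≤ ∑ a ∈ S, (D.h a w + D.h a w') := by
    have : ∑ a ∈ S, (1 : ℤ) ≤ ∑ a ∈ S, (D.h a w + D.h a w') := by
      refine Finset.sum_le_sum fun a ha => ?_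
      have := tri D hE' (ne ha hw) h4 (ne ha hw').symm
      rw [z, h_symm D w' a] at this
      linarith
    rw [Finset.sum_const, hS] at this
    simpa using this
  have e3 : 0 ≤ ∑ a ∈ S, D.h a w'' := Finset.sum_nonneg fun a _ => h_nonneg D a w''
  have e4 := tri D hE' h4 h6 h5.symm
  rw [z, s1] at e4
  have e5 : ∑ a ∈ S, D.h a w'' = 0 := by linarith
  have e6 : D.h w w'' + D.h w' w'' = 1 := by linarith
  have e7 := (Finset.sum_eq_zero_iff_of_nonneg (fun a _ => h_nonneg D a w'')).1 e5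
  have p1 := h_nonneg D w w''
  have p2 := h_nonneg D w' w''
  have : D.h w w'' = 0 ∨ D.h w' w'' = 0 := by omega
  rcases this with k | k
  · refine no_ext D hE' hS hcl hw fun s hs' => ?_
    have := tri D hE' (ne hs' hw) h5 (ne hs' hw'').symm
    rw [k, h_symm D w'' s, e7 s hs'] at this
    exact adj_of_h D (by linarith)
  · refine no_ext D hE' hS hcl hw' fun s hs' => ?_
    have := tri D hE' (ne hs' hw') h6 (ne hs' hw'').symm
    rw [k, h_symm D w'' s, e7 s hs'] at this
    exact adj_of_h D (by linarith)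

/-- The graph consists of two complete graphs on four vertices and of two more edges. -/
theorem two_K4 (hE : D.E = 28) : ∃ S : Finset V, S.card = 4 ∧ Sᶜ.card = 4 ∧
    (∀ a ∈ S, ∀ b ∈ S, a ≠ b → D.adj a b) ∧ (∀ a ∈ Sᶜ, ∀ b ∈ Sᶜ, a ≠ b → D.adj a b) ∧
    ∑ a ∈ S, ∑ b ∈ Sᶜ, D.h a b = 2 := by
  have hE' : 28 ≤ D.E := hE.ge
  obtain ⟨v, hv⟩ := low_deg D hE
  set N : Finset V := Finset.univ.filter (fun w => D.adj v w) with hN
  have hNcard : N.card ≤ 3 := by
    have : ∑ b, D.h v b = (N.card : ℤ) := by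
      unfold Data.h
      rw [Finset.sum_boole]
    rw [this] at hv
    exact_mod_cast hv
  have hvN : v ∉ N := by
    rw [hN, Finset.mem_filter]
    exact fun h => D.irrefl v h.2
  set S : Finset V := (insert v N)ᶜ with hS
  have hSmem : ∀ s ∈ S, s ≠ v ∧ ¬ D.adj v s := by
    intro s hs
    rw [hS, Finset.mem_compl, Finset.mem_insert, not_or, hN, Finset.mem_filter] at hs
    exact ⟨hs.1, fun h => hs.2 ⟨Finset.mem_univ _, h⟩⟩
  have hScl : ∀ a ∈ S, ∀ b ∈ S, a ≠ b → D.adj a b := by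
    intro a ha b hb hab
    obtain ⟨ha1, ha2⟩ := hSmem a ha
    obtain ⟨hb1, hb2⟩ := hSmem b hb
    have := tri D hE' ha1.symm hab hb1
    rw [h_zero D ha2, h_symm D b v, h_zero D hb2] at this
    exact adj_of_h D (by linarith)
  have hScard : S.card = 8 - (N.card + 1) := by
    rw [hS, Finset.card_compl, Finset.card_insert_of_notMem hvN, Fintype.card_fin]
  have hN3 : N.card = 3 := by
    by_contra hne
    have : 5 ≤ S.card := by omega
    obtain ⟨T, hT, hTc⟩ := Finset.exists_subset_card_eq this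
    exact no_K5 D hE' hTc fun a ha b hb hab => hScl a (hT ha) b (hT hb) hab
  have hS4 : S.card = 4 := by rw [hScard, hN3]
  obtain ⟨w, w', w'', h4, h5, h6, hw⟩ := Finset.card_eq_three.1 hN3
  have hSc : Sᶜ = {v, w, w', w''} := by rw [hS, compl_compl, hw]
  have m1 : w ∈ N := by rw [hw]; simp
  have m2 : w' ∈ N := by rw [hw]; simp
  have m3 : w'' ∈ N := by rw [hw]; simp
  have h1 : v ≠ w := by rintro rfl; exact hvN m1
  have h2 : v ≠ w' := by rintro rfl; exact hvN m2
  have h3 : v ≠ w'' := by rintro rfl; exact hvN m3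
  have a1 : D.adj v w := by rw [hN, Finset.mem_filter] at m1; exact m1.2
  have a2 : D.adj v w' := by rw [hN, Finset.mem_filter] at m2; exact m2.2
  have a3 : D.adj v w'' := by rw [hN, Finset.mem_filter] at m3; exact m3.2
  have hvS : ∀ s ∈ S, D.h s v = 0 := by
    intro s hs
    rw [h_symm, h_zero D (hSmem s hs).2]
  have b1 := adj_pair D hE hS4 hScl hSc h1 h2 h3 h4 h5 h6 a1 a2 a3 hvS
  have hSc' : Sᶜ = {v, w, w'', w'} := by
    rw [hSc, Finset.pair_comm w' w'']
  have b2 := adj_pair D hE hS4 hScl hSc' h1 h3 h2 h5 h4 h6.symm a1 a3 a2 hvS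
  have hSc'' : Sᶜ = {v, w', w'', w} := by
    rw [hSc]
    ext x
    simp only [Finset.mem_insert, Finset.mem_singleton]
    tauto
  have b3 := adj_pair D hE hS4 hScl hSc'' h2 h3 h1 h6 h4.symm h5.symm a2 a3 a1 hvS
  have hSc4 : Sᶜ.card = 4 := by
    rw [Finset.card_compl, hS4, Fintype.card_fin]
  have hSccl : ∀ a ∈ Sᶜ, ∀ b ∈ Sᶜ, a ≠ b → D.adj a b := by
    intro a ha b hb hab
    rw [hSc] at ha hb
    simp only [Finset.mem_insert, Finset.mem_singleton] at ha hb
    rcases ha with rfl | rfl | rfl | rfl <;> rcases hb with rfl | rfl | rfl | rfl <;>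
      first
      | exact absurd rfl hab
      | assumption
      | (apply D.symm; assumption)
  refine ⟨S, hS4, hSc4, hScl, hSccl, ?_⟩
  have e0 := E_split D S
  rw [hE, sum_clique D hScl, sum_clique D hSccl, sumε4 S hS4, sumε4 Sᶜ hSc4] at e0
  linarith

end Pool.Agent.X161.EM
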